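import Pool.Agent.helper88.T8.Spec

set_option autoImplicit false

namespace Pool.Agent.T8

open Finset NumberField Pool.Agent.helper3.FT Pool.Agent.helper47.RA Pool.Agent.T5 Pool.Agent.T6 Pool.Agent.T7
open scoped nonZeroDivisors

theorem AC8_finR (K : Type) [Field K] [NumberField K] (κ Y : ℝ) : (RI8 K κ Y).Finite := by
  refine (Ideal.finite_setOfPred_absNorm_le (S := 𝓞 K) ⌊Y⌋₊).subset ?_
  rintro a ⟨-, -, -, -, -, h, -⟩
  exact Nat.le_floor h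

theorem AC8_finG (K : Type) [Field K] [NumberField K] (Q : QF K) (hD : Q.D < 0) (κ Y : ℝ) : (GP8 Q κ Y).Finite := by
  obtain ⟨E, -, -, -, hE, -⟩ := Pool.Agent.helper26.T5.lemb K Q hD
  have h1 : (⋃ a ∈ {a : Ideal (𝓞 K) | Ideal.absNorm a ≤ ⌊Y⌋₊}, (fun α => (a, α)) '' AL Q a Y).Finite :=
    Set.Finite.biUnion (Ideal.finite_setOfPred_absNorm_le (S := 𝓞 K) ⌊Y⌋₊)
      (fun a _ => (Pool.Agent.T5.SFA.2.1 K Q hD a _).image _)
  refine h1.subset ?_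
  rintro ⟨a, α⟩ ⟨-, h2, -, h4, γ, hA⟩
  refine Set.mem_biUnion (show a ∈ {a : Ideal (𝓞 K) | Ideal.absNorm a ≤ ⌊Y⌋₊} from Nat.le_floor h2) ⟨α, ?_, rfl⟩
  have hα0 : α ≠ 0 := by
    rintro rfl
    have h := hA.n0
    have h0 : Q.Y (0 : 𝓞 K) = 0 := by
      have := Q.Y_int 0
      simpa using this
    simp only at h
    omega
  refine ⟨hA.mem, hA.n0, ?_⟩
  have h5 := (Pool.Agent.helper26.T5.AllL.aLAW K Q a α 2 hA.pa hA.ne Nat.prime_two hα0 hA.mem).1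
  have h6 : Q.v₁ α ^ 2 = (Ideal.absNorm a : ℝ) ^ 2 * (lamI a α : ℝ) := by
    rw [← hE, h5]
    push_cast
    ring
  rw [h6]
  exact mul_le_mul_of_nonneg_left h4 (by positivity)

/-- one class -/
theorem AC8_one (hMU : MU7_stmt) (K : Type) [Field K] [NumberField K] (Q : QF K) (hD : Q.D < -4) (κ Y : ℝ)
    (f : ClassGroup (𝓞 K) → Ideal (𝓞 K)) (c : ClassGroup (𝓞 K)) (hc : c ∈ NN8 K κ Y)
    (hf : f c ≠ ⊥ ∧ Prim (f c) ∧
      Ideal.absNorm (f c) = mu c ∧ SC1_cl (f c) = c ∧ (c ^ 5 = 1 → (f c ^ 5).IsPrincipal) ∧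
      (c ≠ 1 → ¬ (f c).IsPrincipal) ∧
      (∀ α ∈ f c ^ 2, α ≠ 0 → (mu c : ℝ) ^ 2 * (mu (c ^ 2) : ℝ) ≤ Q.v₁ α ^ 2) ∧
      ∃ α ∈ f c ^ 2, α ≠ 0 ∧ Q.v₁ α ^ 2 = (mu c : ℝ) ^ 2 * (mu (c ^ 2) : ℝ)) :
    (∃ α, (f c, α) ∈ GP8 Q κ Y) ∨ f c ∈ RI8 K κ Y ∨ ∃ b ∈ RI8 K κ Y, SC1_cl b = (c ^ 2)⁻¹ := by
  have hD0 : Q.D < 0 := by omega
  obtain ⟨c5, c1, k1, k2, k3, k4⟩ := hc
  obtain ⟨f1, f2, f3, f4, f5, f6, f7, α₀, hα₀, hα₀0, hα₀e⟩ := hf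
  obtain ⟨-, -, hmu, -⟩ := hMU K Q hD0
  have hm1 : (1 : ℝ) ≤ (mu c : ℝ) := by exact_mod_cast (hmu c).1
  have hm2 : (1 : ℝ) ≤ (mu (c ^ 2) : ℝ) := by
    have h := (hmu (c ^ (2 : ℕ))).1
    exact_mod_cast h
  obtain ⟨a, ha⟩ : ∃ a, a = f c := ⟨_, rfl⟩
  rw [← ha] at f1 f2 f3 f4 f5 f6 f7 hα₀ ⊢
  -- the sign
  obtain ⟨α, hα, hα0, hαe, hαY⟩ : ∃ α ∈ a ^ 2, α ≠ 0 ∧ Q.v₁ α ^ 2 = (mu c : ℝ) ^ 2 * (mu (c ^ 2) : ℝ) ∧ 0 ≤ Q.Y α := by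
    rcases le_or_gt 0 (Q.Y α₀) with h | h
    · exact ⟨α₀, hα₀, hα₀0, hα₀e, h⟩
    · refine ⟨-α₀, neg_mem hα₀, neg_ne_zero.mpr hα₀0, ?_, ?_⟩
      · rw [Q.v₁_neg, hα₀e]
      · have h1 := Q.Y_int_mul (-1) α₀
        have h2 : ((-1 : ℤ) : 𝓞 K) * α₀ = -α₀ := by push_cast; ring
        rw [h2] at h1
        omega
  obtain ⟨E, -, -, -, hE, hEn⟩ := Pool.Agent.helper26.T5.lemb K Q hD0
  have hlaw := (Pool.Agent.helper26.T5.AllL.aLAW K Q a α 2 f2 f1 Nat.prime_two hα0 hα).1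
  have hlam : lamI a α = mu (c ^ 2) := by
    have h1 : ((Pool.Agent.helper26.T5.nn α : ℕ) : ℝ) = (mu c : ℝ) ^ 2 * (mu (c ^ 2) : ℝ) := by rw [hE, hαe]
    rw [hlaw, f3] at h1
    have h2 : mu c ^ 2 * lamI a α = mu c ^ 2 * mu (c ^ 2) := by exact_mod_cast h1
    have h3 : 0 < mu c ^ 2 := by
      have := (hmu c).1
      positivity
    exact Nat.eq_of_mul_eq_mul_left h3 h2
  -- content one
  have hcont : Pool.Agent.helper26.T5.Cont1 a α := by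
    intro q hq hdvd
    have h1 : α ∈ Ideal.span {(q : 𝓞 K)} * a ^ 2 :=
      Ideal.dvd_iff_le.1 hdvd (Ideal.mem_span_singleton_self α)
    obtain ⟨β, hβ, hβα⟩ := Ideal.mem_span_singleton_mul.1 h1
    have hβ0 : β ≠ 0 := by
      rintro rfl
      rw [mul_zero] at hβα
      exact hα0 hβα.symm
    have h2 := f7 β hβ hβ0
    have h3 : Q.v₁ α = q * Q.v₁ β := by
      rw [← hβα, Q.v₁_mul]
      have := Q.v₁_int (q : ℤ)
      push_cast at this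
      rw [this, abs_of_nonneg (Nat.cast_nonneg q)]
    have h4 : (2 : ℝ) ≤ q := by exact_mod_cast hq.two_le
    have h5 : (0 : ℝ) < (mu c : ℝ) ^ 2 * (mu (c ^ 2) : ℝ) := by positivity
    rw [h3, mul_pow] at hαe
    have h6 : (4 : ℝ) ≤ (q : ℝ) ^ 2 := by nlinarith
    nlinarith
  obtain ⟨⟨θ, hθ⟩⟩ := f5 c5
  have hθ' : Ideal.span {θ} = a ^ 5 := hθ.symm
  obtain ⟨γ, hγ⟩ := (Pool.Agent.helper26.T5.lga K Q a θ f1 hθ' α hα).1
  obtain ⟨F, Fa, Fβ, Fγ, Fα, FZ, FΛ, Fpos⟩ :=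
    Pool.Agent.helper26.T5.lfu K Q a θ α γ hD0 f2 f1 hθ' hα0 hα hcont hγ
  rw [hlam] at FΛ
  rw [f3] at FZ
  by_cases hY0 : Q.Y α = 0
  · -- case 2
    right; left
    obtain ⟨x, hx⟩ := (Q.Y_eq_zero_iff α).mp hY0
    refine ⟨f1, f2, f5 c5, f6 c1, by rw [f3]; exact k1, by rw [f3]; exact k2, x, ?_, ?_, ?_⟩
    · rintro rfl
      apply hα0
      rw [hx]
      simp
    · rw [← hx]
      exact hα
    · rw [hx, Q.v₁_int, sq_abs] at hαe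
      rw [hαe, f3]
      exact mul_le_mul_of_nonneg_left k4 (by positivity)
  · by_cases hYγ : Q.Y γ = 0
    · -- case 3
      right; right
      obtain ⟨x, hx⟩ := (Q.Y_eq_zero_iff γ).mp hYγ
      have hL0 : F.L ≠ ⊥ := by
        intro h
        have h1 := F.nL
        rw [h, Ideal.absNorm_bot, abs_of_pos Fpos] at h1
        push_cast at h1
        omega
      have hLn : Ideal.absNorm F.L = mu (c ^ 2) := by
        have h1 := F.nL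
        rw [abs_of_pos Fpos, FΛ] at h1
        exact_mod_cast h1
      have hcl : SC1_cl F.L = (c ^ 2)⁻¹ := by
        have h1 : SC1_cl (a ^ 2 * F.L) = 1 := by
          have h2 := F.iβ
          rw [Fa] at h2
          rw [← h2, SC1_cl_one _ (by
            rw [h2]
            exact mul_ne_zero (pow_ne_zero 2 f1) hL0)]
          exact ⟨⟨F.β, rfl⟩⟩
        rw [SC1_cl_mul _ _ (pow_ne_zero 2 f1) hL0, SC1_cl_pow _ f1, f4] at h1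
        exact eq_inv_of_mul_eq_one_right h1
      have hc2 : c ^ 2 ≠ 1 := (ZL_sq (G := ClassGroup (𝓞 K))).2.2.1 c c5 c1
      refine ⟨F.L, ⟨hL0, F.pL, ⟨⟨F.α', F.iα'.symm⟩⟩, ?_, by rw [hLn]; exact k3, by rw [hLn]; exact k4, x, ?_, ?_, ?_⟩, hcl⟩
      · intro h
        rw [← SC1_cl_one _ hL0, hcl, inv_eq_one] at h
        exact hc2 h
      · rintro rfl
        have h1 := F.nγ
        rw [Fγ, hx] at h1
        have h2 : ((F.Z * F.Λ ^ 2 : ℤ) : 𝓞 K) = ((0 : ℤ) : 𝓞 K) := by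
          push_cast
          push_cast at h1
          rw [← h1]
          ring
        have h3 := QF.int_inj h2
        have h4 := F.hZ
        have h5 := F.hΛ
        have h6 : F.Z * F.Λ ^ 2 ≠ 0 := by positivity
        exact h6 h3
      · have h1 : γ ∈ Q.bar F.a * F.L ^ 2 := by
          rw [← F.iγ, Fγ]
          exact Ideal.mem_span_singleton_self γ
        rw [← hx]
        exact Ideal.mul_le_right h1
      · have h1 := F.nγ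
        rw [Fγ, hx, Q.cj_int] at h1
        have h2 : ((x * x : ℤ) : 𝓞 K) = ((F.Z * F.Λ ^ 2 : ℤ) : 𝓞 K) := by
          push_cast
          exact h1
        have h3 := QF.int_inj h2
        have h4 : (x : ℝ) ^ 2 = (mu c : ℝ) * (mu (c ^ 2) : ℝ) ^ 2 := by
          rw [FZ, FΛ] at h3
          have h5 : (x : ℝ) * x = (mu c : ℝ) * (mu (c ^ 2) : ℝ) ^ 2 := by exact_mod_cast h3
          rw [← h5]
          ring
        rw [h4, hLn, mul_comm]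
        exact mul_le_mul_of_nonneg_left k2 (by positivity)
    · -- case 1
      left
      refine ⟨α, ?_, ?_, ?_, ?_, γ, ?_⟩
      · show κ * Y ≤ (Ideal.absNorm a : ℝ)
        rw [f3]; exact k1
      · show (Ideal.absNorm a : ℝ) ≤ Y
        rw [f3]; exact k2
      · show κ * Y ≤ (lamI a α : ℝ)
        rw [hlam]; exact k3
      · show (lamI a α : ℝ) ≤ Y
        rw [hlam]; exact k4
      · exact ⟨f1, f2, hα, lt_of_le_of_ne hαY (Ne.symm hY0), ⟨θ, hθ, hγ⟩, hYγ, hcont⟩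

theorem AC8 (hMU : MU7_stmt) : AC8_stmt := by
  classical
  intro K _ _ Q _ hD κ Y _ _
  have hD0 : Q.D < 0 := by omega
  have hG := AC8_finG K Q hD0 κ Y
  have hR := AC8_finR K κ Y
  refine ⟨hG, hR, ?_⟩
  obtain ⟨f, hinj, hf⟩ := ZL_map hMU Q hD0
  have hone := fun c hc => AC8_one hMU K Q hD κ Y f c hc (hf c)
  have hA : ({c | c ∈ NN8 K κ Y ∧ ∃ α, (f c, α) ∈ GP8 Q κ Y} : Set (ClassGroup (𝓞 K))).ncard ≤ (GP8 Q κ Y).ncard := by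
    have hex : ∀ c : ClassGroup (𝓞 K), ∃ α, (c ∈ NN8 K κ Y ∧ ∃ α, (f c, α) ∈ GP8 Q κ Y) → (f c, α) ∈ GP8 Q κ Y := by
      intro c
      by_cases h : c ∈ NN8 K κ Y ∧ ∃ α, (f c, α) ∈ GP8 Q κ Y
      · obtain ⟨-, α, hα⟩ := h
        exact ⟨α, fun _ => hα⟩
      · exact ⟨0, fun h' => absurd h' h⟩
    choose g hg using hex
    refine Set.ncard_le_ncard_of_injOn (fun c => (f c, g c)) ?_ ?_ hG
    · intro c hc
      exact hg c hc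
    · intro c _ c' _ h
      exact hinj (Prod.ext_iff.mp h).1
  have hB : ({c | c ∈ NN8 K κ Y ∧ f c ∈ RI8 K κ Y} : Set (ClassGroup (𝓞 K))).ncard ≤ (RI8 K κ Y).ncard := by
    refine Set.ncard_le_ncard_of_injOn f ?_ hinj.injOn hR
    intro c hc
    exact hc.2
  have hC : ({c | c ∈ NN8 K κ Y ∧ ∃ b ∈ RI8 K κ Y, SC1_cl b = (c ^ 2)⁻¹} : Set (ClassGroup (𝓞 K))).ncard ≤
      (RI8 K κ Y).ncard := by
    have hex : ∀ c : ClassGroup (𝓞 K), ∃ b, (c ∈ NN8 K κ Y ∧ ∃ b ∈ RI8 K κ Y, SC1_cl b = (c ^ 2)⁻¹) →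
        b ∈ RI8 K κ Y ∧ SC1_cl b = (c ^ 2)⁻¹ := by
      intro c
      by_cases h : c ∈ NN8 K κ Y ∧ ∃ b ∈ RI8 K κ Y, SC1_cl b = (c ^ 2)⁻¹
      · obtain ⟨-, b, hb, hb'⟩ := h
        exact ⟨b, fun _ => ⟨hb, hb'⟩⟩
      · exact ⟨⊥, fun h' => absurd h' h⟩
    choose g hg using hex
    refine Set.ncard_le_ncard_of_injOn g ?_ ?_ hR
    · intro c hc
      exact (hg c hc).1
    · intro c hc c' hc' h
      have h1 := (hg c hc).2
      have h2 := (hg c' hc').2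
      rw [h, h2] at h1
      have h3 : c ^ 2 = c' ^ 2 := (inv_injective h1).symm
      exact (ZL_sq (G := ClassGroup (𝓞 K))).2.2.2 hc.1.1 hc'.1.1 h3
  have hsub : NN8 K κ Y ⊆ ({c | c ∈ NN8 K κ Y ∧ ∃ α, (f c, α) ∈ GP8 Q κ Y} ∪ {c | c ∈ NN8 K κ Y ∧ f c ∈ RI8 K κ Y}) ∪
      {c | c ∈ NN8 K κ Y ∧ ∃ b ∈ RI8 K κ Y, SC1_cl b = (c ^ 2)⁻¹} := by
    intro c hc
    rcases hone c hc with h | h | h
    · exact Or.inl (Or.inl ⟨hc, h⟩)
    · exact Or.inl (Or.inr ⟨hc, h⟩)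
    · exact Or.inr ⟨hc, h⟩
  have h1 := Set.ncard_le_ncard hsub (Set.toFinite _)
  have h2 := Set.ncard_union_le ({c | c ∈ NN8 K κ Y ∧ ∃ α, (f c, α) ∈ GP8 Q κ Y} ∪ {c | c ∈ NN8 K κ Y ∧ f c ∈ RI8 K κ Y})
    {c | c ∈ NN8 K κ Y ∧ ∃ b ∈ RI8 K κ Y, SC1_cl b = (c ^ 2)⁻¹}
  have h3 := Set.ncard_union_le {c | c ∈ NN8 K κ Y ∧ ∃ α, (f c, α) ∈ GP8 Q κ Y} {c | c ∈ NN8 K κ Y ∧ f c ∈ RI8 K κ Y}
  omega

end Pool.Agent.T8
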