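import Pool.Agent.helper88.T8.Spec
import Pool.Agent.helper57.T5.UEL
import Pool.Agent.helper57.T5.UXR
import Pool.Agent.helper57.T5.UIV
import Pool.Agent.helper52.T5.USQ

set_option autoImplicit false

namespace Pool.Agent.T8

open Finset NumberField Pool.Agent.helper3.FT Pool.Agent.helper47.RA Pool.Agent.T5 Pool.Agent.T6 Pool.Agent.T7
open scoped nonZeroDivisors

/-- the number of pairs with product at most `Y` -/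
theorem RC8_pairs (C : ℝ) (hC : 1 ≤ C)
    (hdiv : ∀ n : ℕ, 0 < n → ((n.divisors.card : ℕ) : ℝ) ≤ C * (n : ℝ) ^ (1 / 20 : ℝ))
    (Y : ℝ) (hY : 1 ≤ Y) (P : Finset (ℕ × ℕ))
    (hP : ∀ p ∈ P, 1 ≤ p.1 ∧ 1 ≤ p.2 ∧ (p.1 : ℝ) * p.2 ≤ Y) :
    (P.card : ℝ) ≤ C * Y ^ (1 / 20 : ℝ) * Y := by
  have hsub : P ⊆ (Icc 1 ⌊Y⌋₊).biUnion (fun m => m.divisorsAntidiagonal) := by
    intro p hp
    obtain ⟨h1, h2, h3⟩ := hP p hp
    have h0 : 1 ≤ p.1 * p.2 := Nat.mul_pos h1 h2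
    rw [mem_biUnion]
    refine ⟨p.1 * p.2, ?_, ?_⟩
    · rw [mem_Icc]
      refine ⟨h0, ?_⟩
      apply Nat.le_floor
      push_cast
      exact h3
    · rw [Nat.mem_divisorsAntidiagonal]
      exact ⟨rfl, by omega⟩
  have h1 : (P.card : ℝ) ≤ ∑ m ∈ Icc 1 ⌊Y⌋₊, ((m.divisors.card : ℕ) : ℝ) := by
    have h2 : P.card ≤ ∑ m ∈ Icc 1 ⌊Y⌋₊, m.divisors.card := by
      refine (card_le_card hsub).trans (card_biUnion_le.trans ?_)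
      apply sum_le_sum
      intro m hm
      rw [← Nat.map_div_right_divisors, card_map]
    exact_mod_cast h2
  refine h1.trans ?_
  have h3 : ∀ m ∈ Icc 1 ⌊Y⌋₊, ((m.divisors.card : ℕ) : ℝ) ≤ C * Y ^ (1 / 20 : ℝ) := by
    intro m hm
    rw [mem_Icc] at hm
    have h4 : (m : ℝ) ≤ Y := by
      have := Nat.floor_le (by linarith : (0 : ℝ) ≤ Y)
      have h5 : (m : ℝ) ≤ (⌊Y⌋₊ : ℝ) := by exact_mod_cast hm.2
      linarith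
    refine (hdiv m (by omega)).trans ?_
    apply mul_le_mul_of_nonneg_left _ (by linarith)
    apply Real.rpow_le_rpow (Nat.cast_nonneg _) h4 (by norm_num)
  refine (sum_le_sum h3).trans ?_
  rw [sum_const, Nat.card_Icc, nsmul_eq_mul]
  have h6 : ((⌊Y⌋₊ + 1 - 1 : ℕ) : ℝ) ≤ Y := by
    rw [Nat.add_sub_cancel]
    exact Nat.floor_le (by linarith)
  have h7 : (0 : ℝ) ≤ C * Y ^ (1 / 20 : ℝ) := by positivity
  calc ((⌊Y⌋₊ + 1 - 1 : ℕ) : ℝ) * (C * Y ^ (1 / 20 : ℝ)) ≤ Y * (C * Y ^ (1 / 20 : ℝ)) :=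
        mul_le_mul_of_nonneg_right h6 h7
    _ = C * Y ^ (1 / 20 : ℝ) * Y := by ring

/-- the powers of `N` -/
theorem RC8_num (κ A N Y : ℝ) (hκ : 0 < κ) (hA : 1 ≤ A) (hN : 1 ≤ N) (hY : 1 ≤ Y) (hYN : Y ^ 2 ≤ A * N) :
    Y ^ (1 / 20 : ℝ) * Y * (Y ^ (1 / 20 : ℝ) * (√N / (κ * √Y) + Y * √Y / (κ ^ 2 * √N))) ≤
      (A ^ (3 / 10 : ℝ) / κ + A ^ (13 / 10 : ℝ) / κ ^ 2) * N ^ (0.8 : ℝ) := by
  have hA0 : 0 < A := by linarith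
  have hN0 : 0 < N := by linarith
  have hY0 : 0 < Y := by linarith
  have hYle : Y ≤ (A * N) ^ (1 / 2 : ℝ) := by
    rw [← Real.sqrt_eq_rpow]
    exact Real.le_sqrt_of_sq_le hYN
  have hAN : 0 < A * N := by positivity
  have e1 : Y ^ (1 / 20 : ℝ) * Y * (Y ^ (1 / 20 : ℝ) * (√N / (κ * √Y))) =
      Y ^ (3 / 5 : ℝ) * N ^ (1 / 2 : ℝ) / κ := by
    rw [Real.sqrt_eq_rpow, Real.sqrt_eq_rpow]
    have h1 : Y ^ (1 / 20 : ℝ) * Y * Y ^ (1 / 20 : ℝ) = Y ^ (3 / 5 : ℝ) * Y ^ (1 / 2 : ℝ) := by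
      nth_rewrite 2 [← Real.rpow_one Y]
      rw [← Real.rpow_add hY0, ← Real.rpow_add hY0, ← Real.rpow_add hY0]
      norm_num
    have h2 : Y ^ (1 / 2 : ℝ) ≠ 0 := (Real.rpow_pos_of_pos hY0 _).ne'
    calc Y ^ (1 / 20 : ℝ) * Y * (Y ^ (1 / 20 : ℝ) * (N ^ (1 / 2 : ℝ) / (κ * Y ^ (1 / 2 : ℝ))))
        = (Y ^ (1 / 20 : ℝ) * Y * Y ^ (1 / 20 : ℝ)) * N ^ (1 / 2 : ℝ) / (κ * Y ^ (1 / 2 : ℝ)) := by ring
      _ = (Y ^ (3 / 5 : ℝ) * Y ^ (1 / 2 : ℝ)) * N ^ (1 / 2 : ℝ) / (κ * Y ^ (1 / 2 : ℝ)) := by rw [h1]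
      _ = Y ^ (3 / 5 : ℝ) * N ^ (1 / 2 : ℝ) / κ := by field_simp
  have e2 : Y ^ (1 / 20 : ℝ) * Y * (Y ^ (1 / 20 : ℝ) * (Y * √Y / (κ ^ 2 * √N))) =
      Y ^ (13 / 5 : ℝ) / (κ ^ 2 * N ^ (1 / 2 : ℝ)) := by
    rw [Real.sqrt_eq_rpow, Real.sqrt_eq_rpow]
    have h1 : Y ^ (1 / 20 : ℝ) * Y * Y ^ (1 / 20 : ℝ) * (Y * Y ^ (1 / 2 : ℝ)) = Y ^ (13 / 5 : ℝ) := by
      have h2 : Y ^ (1 / 20 : ℝ) * Y * Y ^ (1 / 20 : ℝ) * (Y * Y ^ (1 / 2 : ℝ)) =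
        Y ^ (1 / 20 : ℝ) * Y ^ (1 : ℝ) * Y ^ (1 / 20 : ℝ) * (Y ^ (1 : ℝ) * Y ^ (1 / 2 : ℝ)) := by
        rw [Real.rpow_one]
      rw [h2, ← Real.rpow_add hY0, ← Real.rpow_add hY0, ← Real.rpow_add hY0, ← Real.rpow_add hY0]
      norm_num
    calc Y ^ (1 / 20 : ℝ) * Y * (Y ^ (1 / 20 : ℝ) * (Y * Y ^ (1 / 2 : ℝ) / (κ ^ 2 * N ^ (1 / 2 : ℝ))))
        = (Y ^ (1 / 20 : ℝ) * Y * Y ^ (1 / 20 : ℝ) * (Y * Y ^ (1 / 2 : ℝ))) / (κ ^ 2 * N ^ (1 / 2 : ℝ)) := by ring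
      _ = Y ^ (13 / 5 : ℝ) / (κ ^ 2 * N ^ (1 / 2 : ℝ)) := by rw [h1]
  have f1 : Y ^ (3 / 5 : ℝ) ≤ A ^ (3 / 10 : ℝ) * N ^ (3 / 10 : ℝ) := by
    calc Y ^ (3 / 5 : ℝ) ≤ ((A * N) ^ (1 / 2 : ℝ)) ^ (3 / 5 : ℝ) :=
          Real.rpow_le_rpow hY0.le hYle (by norm_num)
      _ = (A * N) ^ (3 / 10 : ℝ) := by rw [← Real.rpow_mul hAN.le]; norm_num
      _ = A ^ (3 / 10 : ℝ) * N ^ (3 / 10 : ℝ) := Real.mul_rpow hA0.le hN0.le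
  have f2 : Y ^ (13 / 5 : ℝ) ≤ A ^ (13 / 10 : ℝ) * N ^ (13 / 10 : ℝ) := by
    calc Y ^ (13 / 5 : ℝ) ≤ ((A * N) ^ (1 / 2 : ℝ)) ^ (13 / 5 : ℝ) :=
          Real.rpow_le_rpow hY0.le hYle (by norm_num)
      _ = (A * N) ^ (13 / 10 : ℝ) := by rw [← Real.rpow_mul hAN.le]; norm_num
      _ = A ^ (13 / 10 : ℝ) * N ^ (13 / 10 : ℝ) := Real.mul_rpow hA0.le hN0.le
  have g1 : N ^ (3 / 10 : ℝ) * N ^ (1 / 2 : ℝ) = N ^ (0.8 : ℝ) := by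
    rw [← Real.rpow_add hN0]; norm_num
  have g2 : N ^ (13 / 10 : ℝ) = N ^ (0.8 : ℝ) * N ^ (1 / 2 : ℝ) := by
    rw [← Real.rpow_add hN0]; norm_num
  have hN2 : 0 < N ^ (1 / 2 : ℝ) := Real.rpow_pos_of_pos hN0 _
  rw [mul_add, mul_add, e1, e2, add_mul]
  apply add_le_add
  · calc Y ^ (3 / 5 : ℝ) * N ^ (1 / 2 : ℝ) / κ ≤ A ^ (3 / 10 : ℝ) * N ^ (3 / 10 : ℝ) * N ^ (1 / 2 : ℝ) / κ := by
          gcongr
      _ = A ^ (3 / 10 : ℝ) * (N ^ (3 / 10 : ℝ) * N ^ (1 / 2 : ℝ)) / κ := by ring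
      _ = A ^ (3 / 10 : ℝ) / κ * N ^ (0.8 : ℝ) := by rw [g1]; ring
  · calc Y ^ (13 / 5 : ℝ) / (κ ^ 2 * N ^ (1 / 2 : ℝ))
        ≤ A ^ (13 / 10 : ℝ) * N ^ (13 / 10 : ℝ) / (κ ^ 2 * N ^ (1 / 2 : ℝ)) := by gcongr
      _ = A ^ (13 / 10 : ℝ) * (N ^ (0.8 : ℝ) * N ^ (1 / 2 : ℝ)) / (κ ^ 2 * N ^ (1 / 2 : ℝ)) := by rw [g2]
      _ = A ^ (13 / 10 : ℝ) / κ ^ 2 * N ^ (0.8 : ℝ) := by field_simp

theorem RC8 : RC8_stmt := by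
  classical
  intro κ A hκ hκ1 hA
  obtain ⟨C₁, hC₁, hU⟩ := UEL (UXR (UIV USQ)) (1 / 20) (by norm_num)
  obtain ⟨C₂, hC₂, hdiv⟩ := card_divisors_le (1 / 20) (by norm_num)
  have hA0 : 0 < A := by linarith
  set B : ℝ := A ^ (3 / 10 : ℝ) / κ + A ^ (13 / 10 : ℝ) / κ ^ 2 with hB
  have hB1 : 1 ≤ B := by
    have h1 : 1 ≤ A ^ (3 / 10 : ℝ) := Real.one_le_rpow hA (by norm_num)
    have h2 : 1 ≤ A ^ (3 / 10 : ℝ) / κ := by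
      rw [le_div_iff₀ hκ]; linarith
    have h3 : 0 ≤ A ^ (13 / 10 : ℝ) / κ ^ 2 := by positivity
    rw [hB]; linarith
  refine ⟨C₂ * C₁ * B, ?_, ?_⟩
  · have h1 : 1 ≤ C₂ * C₁ := by nlinarith
    nlinarith
  intro N Y hN hY hYN G hG
  have hN0 : 0 < N := by linarith
  have hY0 : 0 < Y := by linarith
  have hsN : 0 < √N := Real.sqrt_pos.mpr hN0
  have hsY : 0 < √Y := Real.sqrt_pos.mpr hY0
  set P : Finset (ℕ × ℕ) := G.image (fun x => (x.2.1, x.2.2.1)) with hPd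
  have hP : ∀ p ∈ P, 1 ≤ p.1 ∧ 1 ≤ p.2 ∧ (p.1 : ℝ) * p.2 ≤ Y ∧ κ * √Y ≤ p.1 := by
    intro p hp
    rw [hPd, mem_image] at hp
    obtain ⟨x, hx, rfl⟩ := hp
    obtain ⟨-, -, h1, h2, h3, h4, -⟩ := hG x hx
    exact ⟨h1, h2, h3, h4⟩
  have hPc := RC8_pairs C₂ hC₂ hdiv Y hY P (fun p hp => ⟨(hP p hp).1, (hP p hp).2.1, (hP p hp).2.2.1⟩)
  have hfib : ∀ p ∈ P, ((G.filter (fun x => (x.2.1, x.2.2.1) = p)).card : ℝ) ≤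
      C₁ * (Y ^ (1 / 20 : ℝ) * (√N / (κ * √Y) + Y * √Y / (κ ^ 2 * √N))) := by
    intro p hp
    obtain ⟨h1, h2, h3, h4⟩ := hP p hp
    obtain ⟨r, z⟩ := p
    simp only at h1 h2 h3 h4
    have hr : (0 : ℝ) < r := by exact_mod_cast h1
    have hz : (0 : ℝ) < z := by exact_mod_cast h2
    set H := G.filter (fun x => (x.2.1, x.2.2.1) = (r, z)) with hH
    have hinj : Set.InjOn (fun x : ℤ × ℕ × ℕ × ℤ × ℤ => (x.2.2.2.1, x.2.2.2.2)) (H : Set _) := by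
      intro x hx y hy hxy
      rw [Finset.mem_coe, hH, mem_filter] at hx hy
      obtain ⟨hx1, hx2⟩ := hx
      obtain ⟨hy1, hy2⟩ := hy
      obtain ⟨-, -, -, -, -, -, a1, -, a2⟩ := hG x hx1
      obtain ⟨-, -, -, -, -, -, b1, -, b2⟩ := hG y hy1
      obtain ⟨xD, xR, xS, xX, xy⟩ := x
      obtain ⟨yD, yR, yS, yX, yy⟩ := y
      simp only [Prod.mk.injEq] at hx2 hy2 hxy a1 a2 b1 b2
      obtain ⟨rfl, rfl⟩ := hx2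
      obtain ⟨rfl, rfl⟩ := hy2
      obtain ⟨rfl, rfl⟩ := hxy
      have h5 : xD * xy ^ 2 = yD * xy ^ 2 := by linarith
      have h6 : xD = yD := mul_right_cancel₀ (pow_ne_zero 2 a1) h5
      rw [h6]
    have hcard : H.card = (H.image (fun x : ℤ × ℕ × ℕ × ℤ × ℤ => (x.2.2.2.1, x.2.2.2.2))).card :=
      (card_image_of_injOn hinj).symm
    rw [hcard]
    refine (hU N r z hN h1 h2 _ ?_).trans ?_
    · intro q hq
      rw [mem_image] at hq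
      obtain ⟨x, hx, rfl⟩ := hq
      rw [hH, mem_filter] at hx
      obtain ⟨hx1, hx2⟩ := hx
      obtain ⟨c1, c2, -, -, -, -, c3, c4, c5⟩ := hG x hx1
      obtain ⟨xD, xR, xS, xX, xy⟩ := x
      simp only [Prod.mk.injEq] at hx2 c1 c2 c3 c4 c5 ⊢
      obtain ⟨rfl, rfl⟩ := hx2
      refine ⟨c3, xD, c1, c2, c4, ?_, ?_⟩
      · have h6 : (xR : ℤ) ∣ xD * xy ^ 2 := by
          refine ⟨(xR : ℤ) * xX ^ 2 - 4 * (xS : ℤ) ^ 5, ?_⟩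
          linarith
        have h7 : IsCoprime (xR : ℤ) (xy ^ 2) := (IsCoprime.of_mul_right_left c4).symm.pow_right
        exact h7.dvd_of_dvd_mul_right h6
      · linarith
    · -- the size
      have hrz : ((r : ℝ) * z) ^ (1 / 20 : ℝ) ≤ Y ^ (1 / 20 : ℝ) :=
        Real.rpow_le_rpow (by positivity) h3 (by norm_num)
      have t1 : √N / r ≤ √N / (κ * √Y) :=
        div_le_div_of_nonneg_left hsN.le (by positivity) h4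
      have t2 : (z : ℝ) ^ 2 * √z * √r / √N ≤ Y * √Y / (κ ^ 2 * √N) := by
        have u1 : κ * √Y * z ≤ Y := by
          refine le_trans ?_ h3
          exact mul_le_mul_of_nonneg_right h4 hz.le
        have u2 : √Y * √Y = Y := Real.mul_self_sqrt hY0.le
        have u3 : κ * z ≤ √Y := by
          have : κ * z * √Y ≤ √Y * √Y := by rw [u2]; linarith
          exact le_of_mul_le_mul_right this hsY
        have u4 : κ ^ 2 * (z : ℝ) ^ 2 ≤ Y := by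
          have : (κ * z) ^ 2 ≤ √Y ^ 2 := pow_le_pow_left₀ (by positivity) u3 2
          rw [Real.sq_sqrt hY0.le] at this
          linarith [mul_pow κ (z : ℝ) 2]
        have u5 : √(z : ℝ) * √(r : ℝ) ≤ √Y := by
          rw [← Real.sqrt_mul hz.le]
          apply Real.sqrt_le_sqrt
          linarith [mul_comm (r : ℝ) z]
        rw [div_le_div_iff₀ hsN (by positivity)]
        calc (z : ℝ) ^ 2 * √z * √r * (κ ^ 2 * √N) = (κ ^ 2 * (z : ℝ) ^ 2) * (√z * √r) * √N := by ring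
          _ ≤ Y * √Y * √N := by gcongr
      calc C₁ * ((r : ℝ) * z) ^ (1 / 20 : ℝ) * (√N / r + (z : ℝ) ^ 2 * √z * √r / √N)
          ≤ C₁ * Y ^ (1 / 20 : ℝ) * (√N / (κ * √Y) + Y * √Y / (κ ^ 2 * √N)) := by gcongr
        _ = C₁ * (Y ^ (1 / 20 : ℝ) * (√N / (κ * √Y) + Y * √Y / (κ ^ 2 * √N))) := by ring
  have hsum : (G.card : ℝ) = ∑ p ∈ P, ((G.filter (fun x => (x.2.1, x.2.2.1) = p)).card : ℝ) := by
    have h := card_eq_sum_card_fiberwise (s := G) (t := P) (f := fun x : ℤ × ℕ × ℕ × ℤ × ℤ => (x.2.1, x.2.2.1))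
      (by
        intro x hx
        rw [hPd]
        exact mem_image_of_mem _ hx)
    exact_mod_cast h
  have hnum := RC8_num κ A N Y hκ hA hN hY hYN
  rw [← hB] at hnum
  set W : ℝ := Y ^ (1 / 20 : ℝ) * (√N / (κ * √Y) + Y * √Y / (κ ^ 2 * √N)) with hW
  have hW0 : 0 ≤ W := by rw [hW]; positivity
  calc (G.card : ℝ) = ∑ p ∈ P, ((G.filter (fun x => (x.2.1, x.2.2.1) = p)).card : ℝ) := hsum
    _ ≤ ∑ p ∈ P, C₁ * W := sum_le_sum hfib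
    _ = P.card * (C₁ * W) := by rw [sum_const, nsmul_eq_mul]
    _ ≤ C₂ * Y ^ (1 / 20 : ℝ) * Y * (C₁ * W) := by gcongr
    _ = C₂ * C₁ * (Y ^ (1 / 20 : ℝ) * Y * W) := by ring
    _ ≤ C₂ * C₁ * (B * N ^ (0.8 : ℝ)) := by gcongr
    _ = C₂ * C₁ * B * N ^ (0.8 : ℝ) := by ring

end Pool.Agent.T8
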